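import Mathlib
import Pool.Agent.Y327.Full
import Pool.Agent.Y327.Meet
import Pool.Agent.H715R2.Littlewood

/-! # MP_0ea415_nt: the limits of a counterexample to Littlewood's conjecture

Let `(α, β)` be a counterexample: `q ⟨qα⟩ ⟨qβ⟩` is bounded away from zero for large `q`. Its limits
are the limits `h` of the matrices `diag(a) g γ`, where `g` is the matrix of the forms `x`,
`α x - y`, `β x - z`, `a` is positive of product one with `a 1, a 2 → ∞`, and `γ` is integral of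
determinant `±1`.

1. Let `i ≠ j` be two of the three rows and let `t` be a real number. There is a limit `h` such that
   also `h` with `t` times its row `j` added to its row `i` is a limit.
2. Let `r` be one of the three rows. There are a limit `h` and for both `k ≠ r` a nonzero
   combination `m k` of the rows `h l`, `l ≠ k`, such that all four matrices, in which none, one or
   both of the rows `k ≠ r` are replaced by `h k + m k`, are limits.
3. Let `i ≠ j` be two of the three rows. There is a limit `h` such that no matrix `a h`, `a`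
   positive diagonal of determinant one with `a i ≠ a j`, is in the closure of the set of the
   matrices `diag(b) h γ`, `b` positive of product one with `b i = b j`, `γ` integral of determinant
   `±1`.
4. All absolute values at nonzero integer points of the products of the rows of limits are limit
   points of the sequence `q ⟨qα⟩ ⟨qβ⟩`, and bounded away from zero.

5. So Littlewood's conjecture follows if for a single choice of `i ≠ j` and `t ≠ 0` there are no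
   real linear forms `l 1, l 2, l 3` in three variables with determinant `±1` such that both the
   product of the `l k` and the product with `l i + t l j` instead of `l i` are bounded away from
   zero at nonzero integer points. -/

set_option autoImplicit false

open Filter Topology

namespace Pool.Agent.Results.MP_0ea415_nt.LimitPairs

/-- `q ⟨qα⟩ ⟨qβ⟩` -/
noncomputable def littlewood (α β : ℝ) (q : ℕ) : ℝ :=
  (q : ℝ) * |(q : ℝ) * α - (round ((q : ℝ) * α) : ℝ)|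
    * |(q : ℝ) * β - (round ((q : ℝ) * β) : ℝ)|

/-- the product of the linear forms given by the rows of `h`, at an integer point -/
noncomputable def F (h : Matrix (Fin 3) (Fin 3) ℝ) (x : Fin 3 → ℤ) : ℝ :=
  ∏ i : Fin 3, ∑ j : Fin 3, h i j * (x j : ℝ)

/-- The limits of the matrices `diag(a) g γ` with `g` the matrix of `x`, `α x - y`, `β x - z`, where
`a` is positive of product one, `γ` integral of determinant `±1`, and `a 1, a 2 → ∞`. -/
def Limits (α β : ℝ) : Set (Matrix (Fin 3) (Fin 3) ℝ) :=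
  {h | ∀ N : ℕ, h ∈ closure {h' | ∃ (a : Fin 3 → ℝ) (γ : Matrix (Fin 3) (Fin 3) ℤ),
    (∀ i, 0 < a i) ∧ ∏ i, a i = 1 ∧ (N : ℝ) ≤ a 1 ∧ (N : ℝ) ≤ a 2 ∧ |γ.det| = 1 ∧
    h' = Matrix.diagonal a * !![1, 0, 0; α, -1, 0; β, 0, -1] * γ.map (Int.cast : ℤ → ℝ)}}

/-- `t` times the row `j` is added to the row `i`. -/
def addRow (h : Matrix (Fin 3) (Fin 3) ℝ) (i j : Fin 3) (t : ℝ) : Matrix (Fin 3) (Fin 3) ℝ :=
  h.updateRow i (h i + t • h j)

/-- The combination `∑ l, W k l • h l` of the rows of `h` is added to its row `k`, for `k ∈ S`. -/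
def addRows (h : Matrix (Fin 3) (Fin 3) ℝ) (W : Fin 3 → Fin 3 → ℝ) (S : Finset (Fin 3)) :
    Matrix (Fin 3) (Fin 3) ℝ :=
  Matrix.of fun k j => if k ∈ S then h k j + ∑ l, W k l * h l j else h k j

/-- The closure of the set of matrices `diag(b) h γ` with `b` positive of product one, `b i = b j`,
and `γ` integral of determinant `±1`. -/
def WallClosure (i j : Fin 3) (h : Matrix (Fin 3) (Fin 3) ℝ) : Set (Matrix (Fin 3) (Fin 3) ℝ) :=
  closure {h' | ∃ (b : Fin 3 → ℝ) (γ : Matrix (Fin 3) (Fin 3) ℤ), (∀ k, 0 < b k) ∧ ∏ k, b k = 1 ∧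
    b i = b j ∧ |γ.det| = 1 ∧ h' = Matrix.diagonal b * h * γ.map (Int.cast : ℤ → ℝ)}

lemma limits_eq (α β : ℝ) : Limits α β = H715R2.YY (H715R2.LLm α β) := by
  ext h
  unfold Limits H715R2.YY
  rw [Set.mem_iInter, Set.mem_ofPred_eq]
  refine forall_congr' fun N => ?_
  have h1 : {h' : Matrix (Fin 3) (Fin 3) ℝ | ∃ (a : Fin 3 → ℝ) (γ : Matrix (Fin 3) (Fin 3) ℤ),
      (∀ i, 0 < a i) ∧ ∏ i, a i = 1 ∧ (N : ℝ) ≤ a 1 ∧ (N : ℝ) ≤ a 2 ∧ |γ.det| = 1 ∧
      h' = Matrix.diagonal a * !![1, 0, 0; α, -1, 0; β, 0, -1] * γ.map (Int.cast : ℤ → ℝ)} =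
      H715R2.OrbN (H715R2.LLm α β) N := by
    ext h'
    constructor
    · rintro ⟨a, γ, h0, h1, h2, h3, h4, rfl⟩
      exact ⟨a, γ, h0, h1, h2, h3, Int.isUnit_iff_abs_eq.2 h4, rfl⟩
    · rintro ⟨a, γ, h0, h1, h2, h3, h4, rfl⟩
      exact ⟨a, γ, h0, h1, h2, h3, Int.isUnit_iff_abs_eq.1 h4, rfl⟩
  rw [h1]

lemma addRow_eq (h : Matrix (Fin 3) (Fin 3) ℝ) (i j : Fin 3) (t : ℝ) :
    addRow h i j t = Matrix.transvection i j t * h := by
  rw [← Y327.Md_eq_transvection]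
  funext a
  by_cases ha : a = i
  · subst ha
    rw [Y327.Md_row, addRow, Matrix.updateRow_self]
    congr 1
    funext b
    simp [Matrix.vecMul, dotProduct]
  · rw [Y327.Md_row_ne _ _ ha, addRow, Matrix.updateRow_ne ha]

lemma addRows_eq (h : Matrix (Fin 3) (Fin 3) ℝ) (W : Fin 3 → Fin 3 → ℝ) (S : Finset (Fin 3)) :
    addRows h W S = Y327.Md S W * h := by
  ext k j
  unfold Y327.Md
  rw [Matrix.add_mul, Matrix.one_mul, Matrix.add_apply, Matrix.mul_apply]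
  simp only [addRows, Matrix.of_apply]
  by_cases hk : k ∈ S
  · simp [hk]
  · simp [hk]

lemma wall_eq (i j : Fin 3) (g : Matrix (Fin 3) (Fin 3) ℝ) :
    WallClosure i j g = closure (Y327.OrbB (Y327.pij i j) g) := by
  unfold WallClosure Y327.OrbB
  congr 1
  ext h
  constructor
  · rintro ⟨a, γ, ha0, ha1, haij, hγ, hh⟩
    exact ⟨a, γ, Y327.pij_iff.2 ⟨ha0, ha1, haij⟩, Int.isUnit_iff_abs_eq.2 hγ, hh⟩
  · rintro ⟨a, γ, ha, hγ, hh⟩
    obtain ⟨h1, h2, h3⟩ := Y327.pij_iff.1 ha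
    exact ⟨a, γ, h1, h2, h3, Int.isUnit_iff_abs_eq.1 hγ, hh⟩

/-- the limits are no integral forms -/
lemma not_propInt {α β ν : ℝ} (hν0 : 0 < ν)
    (hν : ∀ q p r : ℤ, q ≠ 0 → ν ≤ |(q : ℝ) * (α * q - p) * (β * q - r)|)
    {h : Matrix (Fin 3) (Fin 3) ℝ} (hh : h ∈ H715R2.YY (H715R2.LLm α β)) :
    ¬ H715R2.PropInt h := by
  intro hP
  have hnu := H715R2.YY_nu hν hh
  have hdet0 : h.det ≠ 0 := by
    rw [← abs_ne_zero, H715R2.abs_det_closure (H715R2.YY_subset _ hh), H715R2.LLm_det]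
    exact one_ne_zero
  obtain ⟨A, -, hA1, -, hA2⟩ := Pool.Agent.H905R2.Opp.oppA _ (by norm_num) hdet0 hP (by
    intro p hp h0
    have h2 := hnu p hp
    rw [h0, abs_zero] at h2
    exact absurd h2 (not_le.2 hν0))
  obtain ⟨lam, hlam, hAg⟩ := Y327.eig_of_opp hdet0 hA1 hA2
  obtain ⟨K, hfin, hrank, s, hs, hmem⟩ := H715R2.exists_alg_row hdet0 A lam hlam hAg 0
  exact H715R2.no_alg_point hν0 hν hh 0 s hs K hrank hmem

lemma counterexample (α β : ℝ)
    (hc : ∃ ε : ℝ, 0 < ε ∧ ∃ N : ℕ, ∀ q : ℕ, N ≤ q → 0 < q → ε ≤ littlewood α β q) :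
    -- 1. root directions
    (∀ i j : Fin 3, i ≠ j → ∀ t : ℝ, ∃ h ∈ Limits α β, addRow h i j t ∈ Limits α β) ∧
    -- 2. cubes
    (∀ r : Fin 3, ∃ h ∈ Limits α β, ∃ W : Fin 3 → Fin 3 → ℝ,
      (∀ k, k ≠ r → W k k = 0 ∧ W k ≠ 0) ∧
      ∀ S : Finset (Fin 3), r ∉ S → addRows h W S ∈ Limits α β) ∧
    -- 3. walls
    (∀ i j : Fin 3, i ≠ j → ∃ h ∈ Limits α β, ∀ a : Fin 3 → ℝ, (∀ k, 0 < a k) → ∏ k, a k = 1 →
      a i ≠ a j → Matrix.diagonal a * h ∉ WallClosure i j h) ∧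
    -- 4. the values of the limits
    ∃ ν : ℝ, 0 < ν ∧ ∀ h ∈ Limits α β, |h.det| = 1 ∧ ∀ x : Fin 3 → ℤ, x ≠ 0 →
      ν ≤ |F h x| ∧ MapClusterPt |F h x| atTop (littlewood α β) := by
  obtain ⟨ε, hε, N, hN⟩ := hc
  obtain ⟨ν, hν0, hν⟩ := H715R2.exists_nu hε (N := N) hN
  obtain ⟨h₁, hh₁⟩ := H715R2.YY_nonempty hν0 hν
  have hdet1 : h₁.det ≠ 0 := by
    rw [← abs_ne_zero, H715R2.abs_det_closure (H715R2.YY_subset _ hh₁), H715R2.LLm_det]
    exact one_ne_zero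
  have hnu1 := H715R2.YY_nu hν hh₁
  have hint := not_propInt hν0 hν hh₁
  have hsub : closure (H715R2.Orb h₁) ⊆ Limits α β := by
    rw [limits_eq]
    refine closure_minimal ?_ (H715R2.YY_closed _)
    rintro _ ⟨a, γ, ha0, ha1, hγ, rfl⟩
    exact H715R2.YY_inv _ h₁ hh₁ a γ ha0 ha1 hγ
  obtain ⟨M, hMg, hM⟩ := Y327.exists_min_closure (by norm_num) hdet1 hν0 hnu1
  obtain ⟨h₀, hh₀⟩ := hM.ne
  have hsam : ∀ i j : Fin 3, Y327.Sam h₀ i j := by
    intro i j
    obtain ⟨j', hj', hs⟩ := Y327.exists_sam_of_card (i := i) (J := {j}) le_rfl hdet1 hν0 hnu1 hint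
      hMg hM hh₀ (by rw [Finset.card_singleton]; norm_num)
    rw [Finset.mem_singleton] at hj'
    rwa [hj'] at hs
  refine ⟨?_, ?_, ?_, ν, hν0, ?_⟩
  · intro i j hij t
    obtain ⟨h, hh, hh'⟩ := Y327.root_dir le_rfl hdet1 hν0 hnu1 hMg hM hh₀ hij (hsam i j) t
    exact ⟨h, hsub (hMg hh), by rw [addRow_eq]; exact hsub (hMg hh')⟩
  · intro r
    obtain ⟨K, hK, W, Q, hSt⟩ := Y327.st_full le_rfl hdet1 hν0 hnu1 hMg hM hh₀
      (ρ := fun _ => r) (fun l => hsam l r) (fun _ _ _ => rfl)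
    obtain ⟨h, hh⟩ := hSt.ne
    refine ⟨h, ?_, W, fun k hk => ?_, fun S hS => ?_⟩
    · have h1 := hSt.cube h hh ∅ (Finset.empty_subset _)
      rw [Y327.Md_empty, Matrix.one_mul] at h1
      exact hsub (hMg h1)
    · obtain ⟨h1, h2, -⟩ := hSt.supp k ((hK k).2 hk.symm)
      exact ⟨h1, h2⟩
    · rw [addRows_eq]
      refine hsub (hMg (hSt.cube h hh S fun k hk => (hK k).2 ?_))
      rintro rfl
      exact hS hk
  · intro i j hij
    obtain ⟨h, hh, hno⟩ := (Y327.wall_iff le_rfl hdet1 hν0 hnu1 hMg hM hh₀ hij).2 (hsam i j)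
    refine ⟨h, hsub (hMg hh), fun a ha0 ha1 haij hmem => ?_⟩
    rw [wall_eq] at hmem
    exact hno a ⟨ha0, ha1, fun k l hkl => by rw [show k = l from hkl]⟩ haij hmem
  · intro h hh
    rw [limits_eq] at hh
    refine ⟨by rw [H715R2.abs_det_closure (H715R2.YY_subset _ hh), H715R2.LLm_det],
      fun x hx => ⟨H715R2.YY_nu hν hh x hx, ?_⟩⟩
    exact H715R2.cluster hν0 hh (H715R2.YY_nu hν hh) x hx

theorem result :
    -- every counterexample
    (∀ α β : ℝ, (∃ ε : ℝ, 0 < ε ∧ ∃ N : ℕ, ∀ q : ℕ, N ≤ q → 0 < q → ε ≤ littlewood α β q) →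
      -- 1. root directions
      (∀ i j : Fin 3, i ≠ j → ∀ t : ℝ, ∃ h ∈ Limits α β, addRow h i j t ∈ Limits α β) ∧
      -- 2. cubes
      (∀ r : Fin 3, ∃ h ∈ Limits α β, ∃ W : Fin 3 → Fin 3 → ℝ,
        (∀ k, k ≠ r → W k k = 0 ∧ W k ≠ 0) ∧
        ∀ S : Finset (Fin 3), r ∉ S → addRows h W S ∈ Limits α β) ∧
      -- 3. walls
      (∀ i j : Fin 3, i ≠ j → ∃ h ∈ Limits α β, ∀ a : Fin 3 → ℝ, (∀ k, 0 < a k) → ∏ k, a k = 1 →
        a i ≠ a j → Matrix.diagonal a * h ∉ WallClosure i j h) ∧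
      -- 4. the values of the limits
      ∃ ν : ℝ, 0 < ν ∧ ∀ h ∈ Limits α β, |h.det| = 1 ∧ ∀ x : Fin 3 → ℤ, x ≠ 0 →
        ν ≤ |F h x| ∧ MapClusterPt |F h x| atTop (littlewood α β)) ∧
    -- 5. Littlewood's conjecture
    (∀ i j : Fin 3, i ≠ j → ∀ t : ℝ, t ≠ 0 →
      (∀ h : Matrix (Fin 3) (Fin 3) ℝ, |h.det| = 1 → ∀ ν : ℝ, 0 < ν →
        ∃ x : Fin 3 → ℤ, x ≠ 0 ∧ (|F h x| < ν ∨ |F (addRow h i j t) x| < ν)) →
      ∀ α β ε : ℝ, 0 < ε → ∀ N : ℕ, ∃ q : ℕ, N ≤ q ∧ 0 < q ∧ littlewood α β q < ε) := by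
  refine ⟨counterexample, ?_⟩
  intro i j hij t _ hpair α β ε hε N
  by_contra hcon
  push Not at hcon
  obtain ⟨h1, -, -, ν, hν, h4⟩ := counterexample α β ⟨ε, hε, N, hcon⟩
  obtain ⟨h, hh, hh'⟩ := h1 i j hij t
  obtain ⟨hdet, hF⟩ := h4 h hh
  obtain ⟨x, hx, hx1⟩ := hpair h hdet ν hν
  rcases hx1 with hx1 | hx1
  · exact absurd (hF x hx).1 (not_le.2 hx1)
  · exact absurd ((h4 _ hh').2 x hx).1 (not_le.2 hx1)

end Pool.Agent.Results.MP_0ea415_nt.LimitPairs
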