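import Mathlib
import Pool.Agent.H380R2.CodeCF
import Pool.Agent.H380R2.CodeDigits
import Pool.Agent.Y906.LowComp

/-!
# The Littlewood conjecture for pairs with codes of low complexity

Let `α` be irrational with partial quotients `a k` (`pq α k`) and convergents
`p_{k-1} / q_{k-1} = num α k / den α k`, let `β` be real, and let `n k` be integers with
`|q_{k-1} β - n k| ≤ B`, for instance the nearest integers.  The pair has the code
`(a (k+1), z k)`, where `z k = a (k+1) * n (k+1) + n k - n (k+2)` (`code α n k`).  More generally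
we allow signs `τ k` and consider the word `(a (k+1), τ k * z k, τ k * τ (k+1))`, which describes
the code up to a change of the sign of `z`.

The complexity `complexity y m` of an infinite word `y` is the number of its different blocks of
length `m`.  We show: if `(α, β)` is a counterexample to the Littlewood conjecture, then there is
`C` such that every word of the closure of the code has complexity at least `2 m - C` for all `m`,
and the same holds for the digit expansions `β = ∑ k, x k * (q_{k-1} α - p_{k-1})`.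

The proof has two parts: a code which contains no block of period `r` and length `3 r + s`
(`one_denominator`), and the theorem that an infinite word with this property has complexity at
least `2 m - 2 s` (`Pool.Agent.Y906.LowComp.main`, proved with Rauzy graphs).
-/

set_option autoImplicit false

namespace Pool.Agent.Results.MP_0ea415_nt.LowComplexityCodes

open Pool.Agent.H380R2.LC Pool.Agent.Y906.LowComp

/-- Littlewood's conjecture for the pair `(α, β)` (the form of the frozen statement). -/
def Littlewood (α β : ℝ) : Prop :=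
  ∀ ε : ℝ, 0 < ε → ∀ N : ℕ, ∃ q : ℕ, N ≤ q ∧ 0 < q ∧
    (q : ℝ) * |(q : ℝ) * α - (round ((q : ℝ) * α) : ℝ)|
      * |(q : ℝ) * β - (round ((q : ℝ) * β) : ℝ)| < ε

/-- the number of different blocks of length `m` of the word `y` -/
noncomputable def complexity {A : Type} (y : ℕ → A) (m : ℕ) : ℕ∞ :=
  (Set.range fun (i : ℕ) (j : Fin m) => y (i + j)).encard

/-- `y` is in the closure of the shifts of `w`: every block of `y` is a block of `w` -/
def InClosure {A : Type} (y w : ℕ → A) : Prop :=
  ∀ l i : ℕ, ∃ j : ℕ, ∀ k < l, y (i + k) = w (j + k)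

/-- the code, up to signs -/
noncomputable def word (α : ℝ) (n τ : ℕ → ℤ) (k : ℕ) : ℤ × ℤ × ℤ :=
  (pq α (k + 1), τ k * code α n k, τ k * τ (k + 1))

lemma exists_rep {A : Type} {w y : ℕ → A} (hy : InClosure y w) (s m : ℕ)
    (h : complexity y m + ((2 * s + 1 : ℕ) : ℕ∞) ≤ ((2 * m : ℕ) : ℕ∞)) :
    ∃ r u : ℕ, 1 ≤ r ∧ ∀ k, u ≤ k → k < u + 2 * r + s → w (k + r) = w k := by
  by_contra hcon
  push Not at hcon
  have hm : complexity y m = (Blks y m).encard := rfl
  rw [hm] at h
  have hfm : (Blks y m).Finite := by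
    rw [← Set.encard_lt_top_iff]
    refine lt_of_le_of_lt (le_trans le_self_add h) ?_
    exact ENat.natCast_lt_top _
  have hcard : (Blks y m).encard = (P y m : ℕ∞) := (hfm.cast_ncard_eq).symm
  rw [hcard] at h
  have h' : P y m + (2 * s + 1) ≤ 2 * m := by exact_mod_cast h
  have hf1 : (Blks y 1).Finite := fin_le hfm (by omega)
  -- the alphabet is finite
  have halph : (Set.range y).Finite := by
    have : Set.range y ⊆ (fun w : Fin 1 → A => w 0) '' Blks y 1 := by
      rintro _ ⟨i, rfl⟩
      exact ⟨blk y 1 i, ⟨i, rfl⟩, by simp [blk]⟩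
    exact (hf1.image _).subset this
  have hfin : (Blks y (2 * m + 4)).Finite := by
    have h1 : Blks y (2 * m + 4) ⊆ Set.pi Set.univ (fun _ : Fin (2 * m + 4) => Set.range y) := by
      rintro _ ⟨i, rfl⟩ j _
      exact ⟨i + j, rfl⟩
    exact (Set.Finite.pi' (fun _ => halph)).subset (fun w hw j => h1 hw j (Set.mem_univ _))
  have := main (x := y) (s := s) m hfin (by
    intro r u hr hE
    obtain ⟨j, hj⟩ := hy (3 * r + s) u
    obtain ⟨k, hk1, hk2, hk3⟩ := hcon r j hr
    apply hk3
    have e1 := hE (k - j) (by omega)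
    have e2 := hj (k - j) (by omega)
    have e3 := hj (k - j + r) (by omega)
    rw [show j + (k - j) = k by omega] at e2
    rw [show j + (k - j + r) = k + r by omega] at e3
    rw [← e2, ← e3, e1]
    congr 1
    ring)
  omega

lemma littlewood_of {α β : ℝ} (hα : Irrational α) (B : ℝ)
    (h : ∀ s : ℕ, ∃ (n : ℕ → ℤ) (r u : ℕ) (σ : ℤ), 1 ≤ r ∧ (σ = 1 ∨ σ = -1) ∧
      (∀ k, |(den α k : ℝ) * β - n k| ≤ B) ∧
      ∀ k, u ≤ k → k < u + 2 * r + s →
        pq α (k + r + 1) = pq α (k + 1) ∧ code α n (k + r) = σ * code α n k) :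
    Littlewood α β := by
  intro ε hε N
  obtain ⟨t₁, ht₁⟩ := pow_unbounded_of_one_lt (32 * B / ε) (by norm_num : (1 : ℝ) < 2)
  set t : ℕ := t₁ + N with ht
  obtain ⟨n, r, u, σ, hr, hσ, hB, hper⟩ := h (4 * t + 2)
  obtain ⟨q, hq1, hq2⟩ := one_denominator hα B n hB r u t hr σ hσ hper
  have h2t : N < 2 ^ t := lt_of_lt_of_le (Nat.lt_two_pow_self) (Nat.pow_le_pow_right (by norm_num)
    (by omega : N ≤ t))
  refine ⟨q, by omega, by omega, ?_⟩
  change prod α β q < ε
  have h3 : (2 : ℝ) ^ t₁ ≤ 2 ^ t := pow_le_pow_right₀ (by norm_num) (by omega)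
  have h4 : 32 * B < ε * 2 ^ t := by
    rw [div_lt_iff₀ hε] at ht₁
    nlinarith
  have h5 : (0 : ℝ) < 2 ^ t := by positivity
  by_contra hcon
  push Not at hcon
  have : 2 ^ t * ε ≤ 2 ^ t * prod α β q := mul_le_mul_of_nonneg_left hcon h5.le
  linarith

lemma sq_one {t : ℤ} (h : t = 1 ∨ t = -1) : t * t = 1 := by
  rcases h with rfl | rfl <;> norm_num

/-- **Main result.** -/
theorem result :
    (∀ α β B : ℝ, Irrational α →
      (∀ K : ℕ, ∃ (n τ : ℕ → ℤ) (y : ℕ → ℤ × ℤ × ℤ) (m : ℕ),
        (∀ k, |(den α k : ℝ) * β - n k| ≤ B) ∧ (∀ k, τ k = 1 ∨ τ k = -1) ∧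
        InClosure y (word α n τ) ∧ complexity y m + (K : ℕ∞) ≤ ((2 * m : ℕ) : ℕ∞)) →
      Littlewood α β) ∧
    (∀ α β X : ℝ, Irrational α → ∀ x : ℕ → ℤ, (∀ k, |(x k : ℝ)| ≤ X) →
      HasSum (fun k => (x k : ℝ) * (den α k * α - num α k)) β →
      (∀ K : ℕ, ∃ (y : ℕ → ℤ × ℤ) (m : ℕ), InClosure y (fun k => (pq α (k + 1), x (k + 1))) ∧
        complexity y m + (K : ℕ∞) ≤ ((2 * m : ℕ) : ℕ∞)) →
      Littlewood α β) := by
  constructor
  · intro α β B hα h
    apply littlewood_of hα B
    intro s
    obtain ⟨n, τ, y, m, hB, hτ, hy, hm⟩ := h (2 * s + 1)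
    obtain ⟨r, u, hr, hper⟩ := exists_rep hy s m hm
    have hσ : τ (u + r) * τ u = 1 ∨ τ (u + r) * τ u = -1 := by
      rcases hτ (u + r) with h1 | h1 <;> rcases hτ u with h2 | h2 <;> simp [h1, h2]
    refine ⟨n, r, u, τ (u + r) * τ u, hr, hσ, hB, ?_⟩
    have hτc : ∀ k, k < 2 * r + s → τ (u + k + r) * τ (u + k) = τ (u + r) * τ u := by
      intro k
      induction k with
      | zero => intro _; rfl
      | succ k ih =>
        intro hk
        have h1 := ih (by omega)
        have h2 := hper (u + k) (by omega) (by omega)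
        simp only [word, Prod.mk.injEq] at h2
        have h3 := h2.2.2
        have s1 := sq_one (hτ (u + k + r))
        have s2 := sq_one (hτ (u + k))
        have s3 := sq_one (hτ (u + k + 1))
        rw [← h1]
        rw [show u + (k + 1) + r = u + k + r + 1 by ring, show u + (k + 1) = u + k + 1 by ring]
        calc τ (u + k + r + 1) * τ (u + k + 1)
            = (τ (u + k + r) * τ (u + k + r + 1)) * (τ (u + k + r) * τ (u + k + 1)) := by
              linear_combination (-(τ (u + k + r + 1) * τ (u + k + 1))) * s1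
          _ = (τ (u + k) * τ (u + k + 1)) * (τ (u + k + r) * τ (u + k + 1)) := by rw [h3]
          _ = τ (u + k + r) * τ (u + k) := by
              linear_combination (τ (u + k + r) * τ (u + k)) * s3
    intro k hk1 hk2
    have h1 := hper k hk1 hk2
    simp only [word, Prod.mk.injEq] at h1
    obtain ⟨h2, h3, _⟩ := h1
    refine ⟨h2, ?_⟩
    have h4 := hτc (k - u) (by omega)
    rw [show u + (k - u) = k by omega] at h4
    rw [← h4]
    have s1 := sq_one (hτ (k + r))
    linear_combination (-(code α n (k + r))) * s1 + τ (k + r) * h3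
  · intro α β X hα x hX hβ h
    apply littlewood_of hα (4 * X)
    intro s
    obtain ⟨y, m, hy, hm⟩ := h (2 * s + 1)
    obtain ⟨r, u, hr, hper⟩ := exists_rep hy s m hm
    refine ⟨nn α x, r, u, (-1) ^ r, hr, neg_one_pow_eq_or ℤ r, digit_bound hα x X hX hβ, ?_⟩
    intro k h1 h2
    have h3 := hper k h1 h2
    simp only [Prod.mk.injEq] at h3
    obtain ⟨h4, h5⟩ := h3
    refine ⟨h4, ?_⟩
    rw [code_nn, code_nn, h5]
    ring

end Pool.Agent.Results.MP_0ea415_nt.LowComplexityCodes
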