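import Mathlib
import Pool.Agent.Y412.LP.Final

set_option autoImplicit false

/-! # MP_0ea415_nt: the length of arithmetic progressions in the exceptional set of Littlewood's
conjecture

For `ε > 0` and a real number `α` let `V_ε(α)` be the set of all real `β` for which only finitely
many `q` satisfy `q ‖qα‖ ‖qβ‖ < ε`; a pair `(α, β)` violates the Littlewood conjecture if and only
if `β` lies in `V_ε(α)` for some `ε > 0`, and then `α` is badly approximable.

Let `δ, η > 0`. There is a constant `C` such that for all `0 < ε ≤ 1/2` and all `α` with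
`q ‖qα‖ ≥ δ` for all large `q` the set `V_ε(α)` contains no arithmetic progression with
`C ε^(-1-η)` or more terms, unless a multiple `bθ` with `1 ≤ b ≤ C ε^(-2)` of its common difference
`θ` is in `ℤ + ℤα`. An arbitrary inhomogeneous shift `γ` of `qβ` is allowed.

So, for badly approximable `α` and all `θ` not in `ℚ + ℚα`, the smallest of the numbers
`liminf q ‖qα‖ ‖q(β + lθ)‖`, `0 ≤ l < N`, is `O(N^(-1+η))` for every `η > 0`, uniformly in `β` and
`θ`. -/

open Filter

namespace Pool.Agent.Results.MP_0ea415_nt.ProgressionsExponentNearOne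

/-- `q ‖qα‖ ‖qβ - γ‖ < ε` for infinitely many `q` -/
def Good (ε α β γ : ℝ) : Prop :=
  ∃ᶠ q : ℕ in atTop, (q : ℝ) * |q * α - round (q * α)| * |(q * β - γ) - round (q * β - γ)| < ε

theorem result (δ η : ℝ) (hδ : 0 < δ) (hη : 0 < η) :
    ∃ C : ℝ, 0 < C ∧ ∀ (ε : ℝ) (N : ℕ) (α β θ γ : ℝ), 0 < ε → ε ≤ 1 / 2 →
      C * (1 / ε) ^ (1 + η) ≤ N →
      (∀ᶠ q : ℕ in atTop, δ ≤ (q : ℝ) * |q * α - round (q * α)|) →
      (∀ b : ℕ, 1 ≤ b → ε ^ 2 * b ≤ C → ∀ u v : ℤ, (b : ℝ) * θ ≠ u + v * α) →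
      ∃ l : ℕ, l < N ∧ Good ε α (β + l * θ) γ :=
  Pool.Agent.Y412.LP.prog δ η hδ hη

end Pool.Agent.Results.MP_0ea415_nt.ProgressionsExponentNearOne
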