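import Mathlib
import Pool.Agent.Y56.LW.Fin

set_option autoImplicit false

/-! # MP_0ea415_nt: exceptional sets in Littlewood's conjecture have no additive structure

For `0 < ε ≤ 1/2` and a real number `α` let `V_ε(α)` be the set of all real `β` for which (for some
shift `γ`) only finitely many `q` satisfy `q ‖qα‖ ‖qβ - γ‖ < ε`; if a pair `(α, β)` violates the
Littlewood conjecture, then `β` lies in `V_ε(α)` for some `ε > 0`. This set is invariant under
translations by `ℤ + ℤα`; we call numbers independent here if no two of them differ by an element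
of `ℚ + ℚα`. There are absolute constants `c, C > 0` such that the following holds for all
`0 < ε ≤ 1/2` and all real `α`.

1. Let `A` be a finite set of real numbers with `|A + A| ≤ K |A|`. Every set of independent elements
   of `A ∩ V_ε(α)` has at most
   `(C / ε) (2K)^(C (1 + log (1 + log 2K))) |A|^(1 - c ε / (log (1/ε) log 2K))` elements.
2. Let `M` be a finite set of integers with `|M + M| ≤ K |M|` and `β` real. Then
   `q ‖qα‖ ‖q m β‖ < ε` has infinitely many solutions `q` for all but at most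
   `(C / ε) (2K)^(C (1 + log (1 + log 2K))) |M|^(1 - c ε / (log (1/ε) log 2K))` of the `m ∈ M`.
3. For a finite nonempty set `B` of independent elements of `V_ε(α)` let `E(B)` be its additive
   energy and `κ = log (2 |B| ^ 3 / E(B))`. Then
   `log |B| ≤ (C / ε) log (1/ε) ^ 2 κ ^ 2 (1 + log (1 + κ))`.
-/

open Filter
open scoped Pointwise

namespace Pool.Agent.Results.MP_0ea415_nt.SmallDoubling

/-- `q ‖qα‖ ‖qβ - γ‖ < ε` for infinitely many `q` -/
def Good (ε α β γ : ℝ) : Prop :=
  ∃ᶠ q : ℕ in atTop, (q : ℝ) * |q * α - round (q * α)| * |(q * β - γ) - round (q * β - γ)| < ε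

/-- no two elements of `B` differ by an element of `ℚ + ℚα` -/
def Indep (α : ℝ) (B : Finset ℝ) : Prop :=
  ∀ b ∈ B, ∀ b' ∈ B, b ≠ b' → ∀ w u v : ℤ, w ≠ 0 → (w : ℝ) * (b - b') ≠ u + v * α

open Classical in
theorem result : ∃ c C : ℝ, 0 < c ∧ 0 < C ∧ ∀ ε : ℝ, 0 < ε → ε ≤ 1 / 2 → ∀ α : ℝ,
    -- subsets of sets of small doubling
    (∀ (K : ℝ) (A B : Finset ℝ), A.Nonempty → ((A + A).card : ℝ) ≤ K * A.card → B ⊆ A →
      (∀ β ∈ B, ¬ ∀ γ : ℝ, Good ε α β γ) → Indep α B →
      (B.card : ℝ) ≤ C / ε * (2 * K) ^ (C * (1 + Real.log (1 + Real.log (2 * K)))) *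
        (A.card : ℝ) ^ (1 - c * ε / (Real.log (1 / ε) * Real.log (2 * K)))) ∧
    -- multiples of a number by a set of integers of small doubling
    (∀ (K : ℝ) (M : Finset ℤ), M.Nonempty → ((M + M).card : ℝ) ≤ K * M.card → ∀ β : ℝ,
      ((M.filter (fun m : ℤ => ¬ Good ε α (m * β) 0)).card : ℝ) ≤
        C / ε * (2 * K) ^ (C * (1 + Real.log (1 + Real.log (2 * K)))) *
          (M.card : ℝ) ^ (1 - c * ε / (Real.log (1 / ε) * Real.log (2 * K)))) ∧
    -- additive energy
    (∀ B : Finset ℝ, B.Nonempty → (∀ β ∈ B, ¬ ∀ γ : ℝ, Good ε α β γ) → Indep α B →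
      ∀ κ : ℝ, κ = Real.log (2 * ((B.card : ℝ) ^ 3 / (B.addEnergy B : ℕ))) →
        Real.log B.card ≤ C / ε * Real.log (1 / ε) ^ 2 * κ ^ 2 * (1 + Real.log (1 + κ))) := by
  obtain ⟨c, C, hc, hC, h⟩ := Pool.Agent.Y56.LW.smd
  obtain ⟨F, hF, hE⟩ := Pool.Agent.Y56.LW.energy c C hc hC h
  refine ⟨c, C + F, hc, by positivity, ?_⟩
  intro ε hε hε2 α
  have hconv : ∀ K X : ℝ, 1 ≤ K → 0 ≤ X →
      C / ε * (2 * K) ^ (C * (1 + Real.log (1 + Real.log (2 * K)))) * X ≤
      (C + F) / ε * (2 * K) ^ ((C + F) * (1 + Real.log (1 + Real.log (2 * K)))) * X := by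
    intro K X hK hX
    have h1 : 0 ≤ Real.log (2 * K) := Real.log_nonneg (by linarith)
    have h2 : 0 ≤ Real.log (1 + Real.log (2 * K)) := Real.log_nonneg (by linarith)
    have h3 : C / ε ≤ (C + F) / ε := div_le_div_of_nonneg_right (by linarith) hε.le
    have h4 : (2 * K) ^ (C * (1 + Real.log (1 + Real.log (2 * K)))) ≤
        (2 * K) ^ ((C + F) * (1 + Real.log (1 + Real.log (2 * K)))) := by
      apply Real.rpow_le_rpow_of_exponent_le (by linarith)
      apply mul_le_mul_of_nonneg_right (by linarith) (by linarith)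
    have h5 : 0 ≤ C / ε := by positivity
    have h6 : (0:ℝ) ≤ (2 * K) ^ (C * (1 + Real.log (1 + Real.log (2 * K)))) :=
      Real.rpow_nonneg (by linarith) _
    exact mul_le_mul_of_nonneg_right (mul_le_mul h3 h4 h6 (h5.trans h3)) hX
  refine ⟨?_, ?_, ?_⟩
  · intro K A B hA hK hBA hBZ hBI
    obtain ⟨hK1, h1⟩ := h ε hε hε2 α K A B hA hK hBA hBZ hBI
    exact h1.trans (hconv K _ hK1 (by positivity))
  · intro K M hM hK β
    have hMr : (1:ℝ) ≤ M.card := by exact_mod_cast hM.card_pos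
    have hK1 : 1 ≤ K := by
      have h1 : (M.card : ℝ) ≤ (M + M).card := by
        exact_mod_cast Finset.card_le_card_add_left hM
      have h2 : 1 * (M.card : ℝ) ≤ K * M.card := by linarith
      exact le_of_mul_le_mul_right h2 (by linarith)
    have h1 := Pool.Agent.Y56.LW.dilm c C hC h ε hε hε2 α K M hM hK β
    exact h1.trans (hconv K _ hK1 (by positivity))
  · intro B hB hBZ hBI κ hκ
    have h1 := hE ε hε hε2 α B hB hBZ hBI κ hκ
    refine h1.trans ?_
    have hκ0 : 0 ≤ κ := by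
      rw [hκ]
      have h2 : B.addEnergy B ≤ B.card ^ 3 := Pool.Agent.Y56.LW.energy_le B
      have h3 : 0 < B.addEnergy B := Finset.addEnergy_pos hB hB
      have h3r : (0:ℝ) < (B.addEnergy B : ℕ) := by exact_mod_cast h3
      have h2r : ((B.addEnergy B : ℕ) : ℝ) ≤ (B.card : ℝ) ^ 3 := by exact_mod_cast h2
      apply Real.log_nonneg
      have : 1 ≤ (B.card : ℝ) ^ 3 / (B.addEnergy B : ℕ) := by
        rw [le_div_iff₀ h3r]; linarith
      linarith
    have h4 : 0 ≤ Real.log (1 + κ) := Real.log_nonneg (by linarith)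
    have h5 : F / ε ≤ (C + F) / ε := div_le_div_of_nonneg_right (by linarith) hε.le
    have h6 : 0 ≤ Real.log (1 / ε) ^ 2 * κ ^ 2 * (1 + Real.log (1 + κ)) := by positivity
    calc _ = F / ε * (Real.log (1 / ε) ^ 2 * κ ^ 2 * (1 + Real.log (1 + κ))) := by ring
      _ ≤ (C + F) / ε * (Real.log (1 / ε) ^ 2 * κ ^ 2 * (1 + Real.log (1 + κ))) :=
        mul_le_mul_of_nonneg_right h5 h6
      _ = _ := by ring

end Pool.Agent.Results.MP_0ea415_nt.SmallDoubling
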